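import Mathlib

set_option autoImplicit false

namespace Pool.Agent.Results.MP_546b07_lc.Exp

variable {V : Type}

def wt (w : V → V → ℝ) : List V → ℝ
  | a :: b :: l => w a b + wt w (b :: l)
  | _ => 0

def IsPath (E : V → V → Prop) (s t : V) (p : List V) : Prop :=
  p.head? = some s ∧ p.getLast? = some t ∧ p.IsChain E

def Shortest (E : V → V → Prop) (w : V → V → ℝ) (s t : V) (p : List V) : Prop :=
  IsPath E s t p ∧ ∀ q, IsPath E s t q → wt w p ≤ wt w q

def Pres (E : V → V → Prop) (w h : V → V → ℝ) : Prop :=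
  ∀ s t p, Shortest E h s t p → Shortest E w s t p

abbrev W (L : ℕ) := (Fin (L + 1) × Fin 3) ⊕ Fin 3 ⊕ (Fin (L + 1) × Fin 3)

open Sum

def E (L : ℕ) : W L → W L → Prop
  | inl _, inr (inl _) => True
  | inr (inl m), inr (inr t) => m ≠ t.2
  | _, _ => False

def w (L : ℕ) : W L → W L → ℝ
  | inl s, inr (inl m) => 4 * 4 ^ L +
      if m = s.2 + 1 then (-4) ^ (s.1 : ℕ) else if m = s.2 + 2 then -(-4) ^ (s.1 : ℕ) else 0
  | inr (inl m), inr (inr t) => 4 * 4 ^ L + if m = t.2 + 2 then 3 * (-4) ^ (t.1 : ℕ) else 0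
  | _, _ => 1

variable {L : ℕ}

lemma paths {s t : Fin (L + 1) × Fin 3} {p : List (W L)}
    (h : IsPath (E L) (inl s) (inr (inr t)) p) :
    ∃ m, m ≠ t.2 ∧ p = [inl s, inr (inl m), inr (inr t)] := by
  obtain ⟨h1, h2, h3⟩ := h
  rcases p with _ | ⟨a, _ | ⟨b, p⟩⟩
  · cases h1
  · cases h1; cases h2
  cases h1
  rw [List.isChain_cons_cons] at h3
  rcases b with b | b | b <;> try exact h3.1.elim
  rcases p with _ | ⟨c, p⟩
  · cases h2
  have h4 := List.isChain_cons_cons.1 h3.2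
  rcases c with c | c | c <;> try exact h4.1.elim
  rcases p with _ | ⟨d, p⟩
  · cases h2
    exact ⟨b, h4.1, rfl⟩
  · have := (List.isChain_cons_cons.1 h4.2).1
    rcases d with d | d | d <;> exact this.elim

lemma key {h : W L → W L → ℝ} (H : Pres (E L) (w L) h) (s t : Fin (L + 1) × Fin 3)
    (m m' : Fin 3) (b : m' ≠ t.2) (c : ∀ x, x ≠ t.2 → x = m ∨ x = m') (a : m ≠ t.2)
    (lt : w L (inl s) (inr (inl m)) + w L (inr (inl m)) (inr (inr t)) <
      w L (inl s) (inr (inl m')) + w L (inr (inl m')) (inr (inr t))) :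
    h (inl s) (inr (inl m)) + h (inr (inl m)) (inr (inr t)) <
      h (inl s) (inr (inl m')) + h (inr (inl m')) (inr (inr t)) := by
  by_contra hc
  have P : ∀ x, x ≠ t.2 → IsPath (E L) (inl s) (inr (inr t)) [inl s, inr (inl x), inr (inr t)] :=
    fun x hx => ⟨rfl, rfl, by simp [E, hx]⟩
  have := (H _ _ _ ⟨P m' b, fun q hq => ?_⟩).2 _ (P m a)
  · simp only [wt] at this
    linarith
  · obtain ⟨x, hx, rfl⟩ := paths hq
    rcases c x hx with rfl | rfl
    · simp only [wt]
      linarith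
    · exact le_rfl

def f (h : W L → W L → ℕ) (n : Fin (L + 1)) (i j : Fin 3) : ℤ :=
  (h (inl (n, i)) (inr (inl (j + 1))) : ℤ) - h (inl (n, i)) (inr (inl (j + 2)))

lemma step {h : W L → W L → ℕ} (H : Pres (E L) (w L) fun a b => h a b) (n : ℕ) (hn : n < L)
    (i j : Fin 3) (ij : i ≠ j) :
    (-1) ^ n * f h ⟨n, by omega⟩ j j + 1 ≤ (-1) ^ n * f h ⟨n + 1, by omega⟩ i j := by
  have c1 : ∀ j x : Fin 3, x ≠ j → x = j + 1 ∨ x = j + 2 := by decide
  have c2 : ∀ j x : Fin 3, x ≠ j → x = j + 2 ∨ x = j + 1 := by decide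
  have d1 : ∀ j : Fin 3, j + 1 ≠ j := by decide
  have d2 : ∀ j : Fin 3, j + 2 ≠ j := by decide
  have p : (0 : ℝ) < 4 ^ n := by positivity
  rcases n.even_or_odd with e | e
  · have e4 : (-4 : ℝ) ^ n = 4 ^ n := e.neg_pow 4
    have a := key H (⟨n, by omega⟩, j) (⟨n, by omega⟩, j) _ _ (d2 j) (c1 j) (d1 j) (by
      fin_cases j <;> simp [w, e4] <;> linarith)
    have b := key H (⟨n + 1, by omega⟩, i) (⟨n, by omega⟩, j) _ _ (d1 j) (c2 j) (d2 j) (by
      fin_cases i <;> fin_cases j <;> simp [w, e4, pow_succ] at ij ⊢ <;> linarith)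
    norm_cast at a b
    simp only [e.neg_one_pow, f] at *
    omega
  · have e4 : (-4 : ℝ) ^ n = -4 ^ n := e.neg_pow 4
    have a := key H (⟨n, by omega⟩, j) (⟨n, by omega⟩, j) _ _ (d1 j) (c2 j) (d2 j) (by
      fin_cases j <;> simp [w, e4] <;> linarith)
    have b := key H (⟨n + 1, by omega⟩, i) (⟨n, by omega⟩, j) _ _ (d2 j) (c1 j) (d1 j) (by
      fin_cases i <;> fin_cases j <;> simp [w, e4, pow_succ] at ij ⊢ <;> linarith)
    norm_cast at a b
    simp only [e.neg_one_pow, f] at *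
    omega

lemma zero (h : W L → W L → ℕ) (n : Fin (L + 1)) (i : Fin 3) :
    f h n i 0 + f h n i 1 + f h n i 2 = 0 := by
  simp only [f, show (0 : Fin 3) + 1 = 1 from rfl, show (0 : Fin 3) + 2 = 2 from rfl,
    show (1 : Fin 3) + 1 = 2 from rfl, show (1 : Fin 3) + 2 = 0 from rfl,
    show (2 : Fin 3) + 1 = 0 from rfl, show (2 : Fin 3) + 2 = 1 from rfl]
  ring

lemma base {h : W L → W L → ℕ} (H : Pres (E L) (w L) fun a b => h a b) (hn : 0 < L)
    (i j : Fin 3) (ij : i ≠ j) : f h ⟨1, by omega⟩ j j + 1 ≤ f h ⟨1, by omega⟩ i j := by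
  have c1 : ∀ j x : Fin 3, x ≠ j → x = j + 1 ∨ x = j + 2 := by decide
  have c2 : ∀ j x : Fin 3, x ≠ j → x = j + 2 ∨ x = j + 1 := by decide
  have d1 : ∀ j : Fin 3, j + 1 ≠ j := by decide
  have d2 : ∀ j : Fin 3, j + 2 ≠ j := by decide
  have a := key H (⟨1, by omega⟩, j) (⟨0, by omega⟩, j) _ _ (d2 j) (c1 j) (d1 j) (by
    fin_cases j <;> simp only [w] <;> simp <;> linarith)
  have b := key H (⟨1, by omega⟩, i) (⟨0, by omega⟩, j) _ _ (d1 j) (c2 j) (d2 j) (by
    fin_cases i <;> fin_cases j <;> simp only [w] <;> simp at ij ⊢ <;> linarith)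
  norm_cast at a b
  simp only [f] at *
  omega

lemma grow {h : W L → W L → ℕ} (H : Pres (E L) (w L) fun a b => h a b) (n : ℕ) :
    ∀ hn : n < L, 2 ^ (n + 1) ≤ (-1) ^ (n + 1) * (f h ⟨n + 1, by omega⟩ 0 0 +
      f h ⟨n + 1, by omega⟩ 1 1 + f h ⟨n + 1, by omega⟩ 2 2) := by
  induction n with
  | zero =>
    intro hn
    have := zero h ⟨1, by omega⟩
    have := base H hn
    simp only [zero_add, pow_one]
    linarith [this 0 1 (by decide), this 0 2 (by decide), this 1 0 (by decide),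
      this 1 2 (by decide), this 2 0 (by decide), this 2 1 (by decide),
      zero h ⟨1, by omega⟩ 0, zero h ⟨1, by omega⟩ 1, zero h ⟨1, by omega⟩ 2]
  | succ n ih =>
    intro hn
    have a := ih (by omega)
    have := step H (n + 1) hn
    have z : ∀ i, (-1 : ℤ) ^ (n + 1) * (f h ⟨n + 1 + 1, by omega⟩ i 0 +
        f h ⟨n + 1 + 1, by omega⟩ i 1 + f h ⟨n + 1 + 1, by omega⟩ i 2) = 0 := fun i => by
      rw [zero, mul_zero]
    rw [pow_succ 2, pow_succ (-1)]
    linarith [this 0 1 (by decide), this 0 2 (by decide), this 1 0 (by decide),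
      this 1 2 (by decide), this 2 0 (by decide), this 2 1 (by decide), z 0, z 1, z 2]

def lay : W L → ℕ
  | inl _ => 0
  | inr (inl _) => 1
  | inr (inr _) => 2

theorem result (L : ℕ) (hL : 0 < L) : ∃ (V : Type) (_ : Fintype V) (E : V → V → Prop)
    (w : V → V → ℝ), Fintype.card V = 6 * L + 9 ∧ (∀ v, ¬ Relation.TransGen E v v) ∧
      (∀ a b, E a b → 0 < w a b) ∧
      ∀ h : V → V → ℕ, Pres E w (fun a b => h a b) → ∃ a b, E a b ∧ 2 ^ L ≤ 3 * h a b := by
  refine ⟨W L, inferInstance, E L, w L, by simp; ring, fun v hv => ?_, fun a b hab => ?_,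
    fun h H => ?_⟩
  · have : ∀ a b, Relation.TransGen (E L) a b → lay a < lay b := fun a b h => by
      have : ∀ a b, E L a b → lay a < lay b := by
        rintro (a | a | a) (b | b | b) h <;> first | exact h.elim | simp [lay]
      induction h with
      | single h => exact this _ _ h
      | tail _ h ih => exact ih.trans (this _ _ h)
    exact lt_irrefl _ (this v v hv)
  · have k : ∀ n : Fin (L + 1), |(-4 : ℝ) ^ (n : ℕ)| ≤ 4 ^ L := fun n => by
      rw [abs_pow, abs_neg, abs_of_pos (by norm_num)]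
      exact pow_le_pow_right₀ (by norm_num) (by omega)
    have p : (0 : ℝ) < 4 ^ L := by positivity
    rcases a with a | a | a <;> rcases b with b | b | b <;> simp only [w] <;> try norm_num
    · have := abs_le.1 (k a.1)
      split_ifs <;> linarith
    · have := abs_le.1 (k b.1)
      split_ifs <;> linarith
  · by_contra hc
    push Not at hc
    obtain ⟨n, rfl⟩ : ∃ n, L = n + 1 := ⟨L - 1, by omega⟩
    have g := grow H n (by omega)
    have b : ∀ s m, 3 * (h (inl s) (inr (inl m)) : ℤ) < 2 ^ (n + 1) := fun s m => by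
      exact_mod_cast hc (inl s) (inr (inl m)) trivial
    have c : ∀ i j, 3 * f h ⟨n + 1, by omega⟩ i j < 2 ^ (n + 1) ∧
        -3 * f h ⟨n + 1, by omega⟩ i j < 2 ^ (n + 1) := fun i j => by
      have := b (⟨n + 1, by omega⟩, i) (j + 1)
      have := b (⟨n + 1, by omega⟩, i) (j + 2)
      simp only [f]
      omega
    rcases neg_one_pow_eq_or ℤ (n + 1) with e | e <;> rw [e] at g <;>
      linarith [c 0 0, c 1 1, c 2 2]

end Pool.Agent.Results.MP_546b07_lc.Exp
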